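import Pool.Agent.H829.CS.Grid2

/-!
# Cells around graphs in the complement of a set of area zero
-/

set_option autoImplicit false

open Set Filter Topology Metric Function MeasureTheory
open scoped Manifold ContDiff NNReal ENNReal

noncomputable section

namespace Pool.Agent.H829.CS

open Pool.Agent.Y522 Pool.Agent.N550.KH Pool.Agent.N550.TS Pool.Agent.H829.AZ

/-- the join of two curves has dimension at most three -/
theorem dim_join {n : ℕ} (γ ℓ : ℝ → E n) (U : Set ℝ) (hγ : ∀ t ∈ U, ContDiffAt ℝ 1 γ t)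
    (hℓ : ContDiff ℝ 1 ℓ) :
    dimH ((fun p : ℝ × ℝ × ℝ => γ p.1 + p.2.2 • (ℓ p.2.1 - γ p.1)) '' {p | p.1 ∈ U}) ≤ 3 := by
  refine (dimH_image_le_of_locally_lipschitzOn fun p hp => ?_).trans ?_
  · have h1 : ContDiffAt ℝ 1 (fun p : ℝ × ℝ × ℝ => γ p.1) p :=
      ContDiffAt.comp (g := γ) p (hγ p.1 hp) contDiffAt_fst
    have h2 : ContDiffAt ℝ 1 (fun p : ℝ × ℝ × ℝ => ℓ p.2.1) p :=
      ContDiffAt.comp (g := ℓ) p hℓ.contDiffAt (contDiff_fst.comp contDiff_snd).contDiffAt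
    have h3 : ContDiffAt ℝ 1 (fun p : ℝ × ℝ × ℝ => p.2.2) p :=
      (contDiff_snd.comp contDiff_snd).contDiffAt
    obtain ⟨K, t, ht, hK⟩ := (h1.add (h3.smul (h2.sub h1))).exists_lipschitzOnWith
    exact ⟨K, t, mem_nhdsWithin_of_mem_nhds ht, hK⟩
  · refine (dimH_mono (subset_univ _)).trans ?_
    rw [Real.dimH_univ_eq_finrank]
    simp

/-- A point such that the cone over the first graph is disjoint from the second graph. -/
theorem exists_vertex {n : ℕ} (hn : 4 ≤ n) {ι κ : Type} [Countable ι] [Countable κ]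
    (γ : ι → ℝ → E n) (U : ι → Set ℝ) (hγ : ∀ k, ∀ t ∈ U k, ContDiffAt ℝ 1 (γ k) t)
    (ℓ : κ → ℝ → E n) (hℓ : ∀ l, ContDiff ℝ 1 (ℓ l)) {G Γ : Set (E n)}
    (hG : G ⊆ ⋃ k, γ k '' U k) (hΓ : Γ ⊆ ⋃ l, range (ℓ l)) :
    ∃ v : E n, v ∉ Γ ∧ ∀ g ∈ G, ∀ q ∈ Γ, ∀ u : ℝ, v ≠ g + u • (q - g) := by
  set B : Set (E n) := (⋃ k, ⋃ l, (fun p : ℝ × ℝ × ℝ => γ k p.1 + p.2.2 • (ℓ l p.2.1 - γ k p.1)) ''
    {p | p.1 ∈ U k}) ∪ ⋃ l, range (ℓ l) with hB
  have hdim : dimH B ≤ 3 := by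
    rw [hB, dimH_union, max_le_iff, dimH_iUnion, dimH_iUnion]
    refine ⟨iSup_le fun k => ?_, iSup_le fun l => ?_⟩
    · rw [dimH_iUnion]
      exact iSup_le fun l => dim_join (γ k) (ℓ l) (U k) (hγ k) (hℓ l)
    · refine (dimH_range_le_of_locally_lipschitzOn fun t => ?_).trans ?_
      · exact (hℓ l).contDiffAt.exists_lipschitzOnWith
      · rw [Real.dimH_univ_eq_finrank]
        simp
  have hlt : dimH B < Module.finrank ℝ (E n) := by
    rw [finrank_euclideanSpace_fin]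
    refine lt_of_le_of_lt hdim ?_
    exact_mod_cast (by omega : 3 < n)
  obtain ⟨v, hv⟩ := (dense_compl_of_dimH_lt_finrank hlt).nonempty
  refine ⟨v, fun h => hv (Or.inr (hΓ h)), fun g hg q hq u h => hv (Or.inl ?_)⟩
  obtain ⟨k, s, hs, rfl⟩ := mem_iUnion.1 (hG hg)
  obtain ⟨l, t, rfl⟩ := mem_iUnion.1 (hΓ hq)
  exact mem_iUnion.2 ⟨k, mem_iUnion.2 ⟨l, (s, t, u), hs, h.symm⟩⟩

/-- **Cells around graphs.** -/
theorem cone_cell {n : ℕ} (hn : 4 ≤ n) {S G : Set (E n)} (hS : IsCompact S)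
    (h0 : Measure.hausdorffMeasure 2 S = 0) (hG : IsCompact G) (hGS : Disjoint G S) {ι : Type}
    [Countable ι] (γ : ι → ℝ → E n) (U : ι → Set ℝ) (hγ : ∀ k, ∀ t ∈ U k, ContDiffAt ℝ 1 (γ k) t)
    (hGU : G ⊆ ⋃ k, γ k '' U k) :
    ∃ e : E n → E n, IsCell n e ∧ G ⊆ range e ∧ Disjoint (range e) S := by
  obtain ⟨Γ, C₀, ℓ, hΓc, hΓO, hΓS, hC, hCO, hℓ, hΓℓ, hΨ⟩ := compress (by omega : 3 ≤ n) hS h0
    hG.isClosed.isOpen_compl (fun x hx hxG => disjoint_left.1 hGS hxG hx)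
  obtain ⟨v, hvΓ, hv⟩ := exists_vertex hn γ U hγ ℓ (fun l => (hℓ l).of_le (by simp)) hGU hΓℓ
  -- the cone
  set Z : Set (E n) := insert v ((fun p : E n × ℝ => p.1 + p.2 • (v - p.1)) '' (G ×ˢ Icc 0 1))
    with hZ
  have hZc : IsCompact Z := by
    refine IsCompact.insert ((hG.prod isCompact_Icc).image ?_) v
    fun_prop
  have hGZ : G ⊆ Z := fun g hg => Or.inr ⟨(g, 0), ⟨hg, by simp⟩, by simp⟩
  have hZst : StarConvex ℝ v Z := by
    rintro y (rfl | ⟨⟨g, u⟩, ⟨hg, hu0, hu1⟩, rfl⟩) a b ha hb hab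
    · left
      rw [← add_smul, hab, one_smul]
    · right
      refine ⟨(g, a + b * u), ⟨hg, ?_, ?_⟩, ?_⟩
      · simp only
        positivity
      · simp only
        simp only at hu1
        nlinarith
      · have hb' : b = 1 - a := by linarith
        simp only [hb', smul_add, smul_sub, add_smul, sub_smul, mul_smul, one_smul]
        abel
  have hZΓ : Disjoint Z Γ := by
    rw [disjoint_left]
    rintro y (rfl | ⟨⟨g, u⟩, ⟨hg, hu0, hu1⟩, rfl⟩) hy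
    · exact hvΓ hy
    · simp only at hg hu0 hu1 hy
      by_cases hu : u = 0
      · rw [hu, zero_smul, add_zero] at hy
        exact hΓO hy hg
      · refine hv g hg _ hy u⁻¹ ?_
        rw [add_sub_cancel_left, smul_smul, inv_mul_cancel₀ hu, one_smul, add_sub_cancel]
  obtain ⟨Ψ, h1, h2, h3⟩ := hΨ Zᶜ hZc.isClosed.isOpen_compl
    (fun y hy hyZ => disjoint_left.1 hZΓ hyZ hy)
  have hΨG : ∀ g ∈ G, Ψ g = g := fun g hg => h2 g fun h => hCO h hg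
  set W : Set (E n) := (Ψ '' S)ᶜ with hW
  have hWo : IsOpen W := (hS.image (Two.cont_of_ld h1.2)).isClosed.isOpen_compl
  have hZW : Z ⊆ W := fun y hy hyS => h3 hyS hy
  obtain ⟨r, hr, hrW⟩ := Metric.isOpen_iff.1 hWo v (hZW (Or.inl rfl))
  obtain ⟨Υ, C₁, hC1, hC1W, k1, k2, k3⟩ := star_contract hZc hZst hWo hZW (half_pos hr)
  obtain ⟨Ψ', hΨ', a1, a2⟩ := dfInv h1
  obtain ⟨Υ', hΥ', b1, b2⟩ := dfInv k1
  refine ⟨fun z => Ψ' (Υ' (bt v r z)), (bt_cell v hr).df (IsDf.comp hΨ' hΥ'), ?_, ?_⟩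
  · intro g hg
    have h4 : Υ g ∈ ball v (r / 2) := k3 ⟨g, hGZ hg, rfl⟩
    obtain ⟨z, -, hz⟩ := bt_half v hr (w := Υ g) (by
      rw [mem_ball, dist_eq_norm] at h4
      exact h4.le)
    refine ⟨z, ?_⟩
    show Ψ' (Υ' (bt v r z)) = g
    rw [hz, b1]
    have h5 := a1 g
    rwa [hΨG g hg] at h5
  · rw [disjoint_left]
    rintro _ ⟨z, rfl⟩ hzS
    have h4 : Υ' (bt v r z) ∈ Ψ '' S := ⟨_, hzS, a2 _⟩
    have h5 : Υ (Υ' (bt v r z)) = Υ' (bt v r z) := k2 _ fun h => hC1W h h4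
    rw [b2] at h5
    rw [← h5] at h4
    exact hrW (bt_range v hr z) h4

end Pool.Agent.H829.CS
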