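import Pool.Agent.H829.AZ.Sph

/-!
# Contractions of star-shaped sets and the collapse of a ball
-/

set_option autoImplicit false

open Set Filter Topology Metric Function MeasureTheory
open scoped Manifold ContDiff NNReal

noncomputable section

namespace Pool.Agent.H829.CS

open Pool.Agent.Y522 Pool.Agent.N550.KH Pool.Agent.N550.TS Pool.Agent.H829.AZ
open Pool.Agent.X175.SH (dif_small)
open Pool.Agent.Y784.SH (Dif)

theorem isDf_iterate {n : ℕ} {f : E n → E n} (hf : IsDf n f) (k : ℕ) : IsDf n (f^[k]) := by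
  induction k with
  | zero => exact isDf_id
  | succ k ih =>
    rw [iterate_succ']
    exact IsDf.comp (g := f) (f := f^[k]) hf ih

/-- cutoff functions -/
theorem cutoff {n : ℕ} {Z W : Set (E n)} (hZ : IsCompact Z) (hW : IsOpen W) (hZW : Z ⊆ W) :
    ∃ (χ : E n → ℝ) (C₀ : Set (E n)), ContDiff ℝ ∞ χ ∧ IsCompact C₀ ∧ C₀ ⊆ W ∧
      (∀ x, x ∉ C₀ → χ x = 0) ∧ ∀ x ∈ Z, χ x = 1 := by
  obtain ⟨K, hK, hZK, hKW⟩ := exists_compact_between hZ hW hZW
  obtain ⟨f, h0, h1, -⟩ := exists_contMDiffMap_zero_one_of_isClosed (n := ⊤) (𝓘(ℝ, E n))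
    (s := (interior K)ᶜ) (t := Z) isOpen_interior.isClosed_compl hZ.isClosed
    (disjoint_left.2 fun x hx hx' => hx (hZK hx'))
  refine ⟨f, K, f.contMDiff.contDiff, hK, hKW, fun x hx => ?_, fun x hx => h1 hx⟩
  exact h0 (fun h => hx (interior_subset h))

/-- a star-shaped compact set can be contracted in every neighbourhood -/
theorem star_contract {n : ℕ} {Z W : Set (E n)} (hZ : IsCompact Z) {v : E n}
    (hst : StarConvex ℝ v Z) (hW : IsOpen W) (hZW : Z ⊆ W) {η : ℝ} (hη : 0 < η) :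
    ∃ (Υ : E n → E n) (C₀ : Set (E n)), IsCompact C₀ ∧ C₀ ⊆ W ∧ IsDf n Υ ∧
      (∀ x, x ∉ C₀ → Υ x = x) ∧ Υ '' Z ⊆ ball v η := by
  obtain ⟨χ, C₀, hχ, hC, hCW, hχ0, hχ1⟩ := cutoff hZ hW hZW
  obtain ⟨c, hc0, hc1, hD⟩ := dif_small (u := fun x => χ x • (x - v))
    (hχ.smul (contDiff_id.sub contDiff_const))
    (HasCompactSupport.intro hC fun x hx => by simp [hχ0 x hx])
  set Θ : E n → E n := fun x => x + (-c) • (χ x • (x - v)) with hΘ
  have hΘZ : ∀ x ∈ Z, Θ x = v + (1 - c) • (x - v) := by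
    intro x hx
    simp only [hΘ, hχ1 x hx, one_smul, sub_smul, neg_smul]
    abel
  have hZmem : ∀ x ∈ Z, Θ x ∈ Z := by
    intro x hx
    rw [hΘZ x hx]
    have h1 := hst hx (a := c) (b := 1 - c) hc0.le (by linarith) (by ring)
    have h2 : c • v + (1 - c) • x = v + (1 - c) • (x - v) := by
      simp only [sub_smul, smul_sub, one_smul]
      abel
    rwa [h2] at h1
  have hit : ∀ (k : ℕ) (x : E n), x ∈ Z → Θ^[k] x ∈ Z ∧ Θ^[k] x = v + (1 - c) ^ k • (x - v) := by
    intro k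
    induction k with
    | zero =>
      intro x hx
      refine ⟨hx, ?_⟩
      simp
    | succ k ih =>
      intro x hx
      obtain ⟨h1, h2⟩ := ih x hx
      rw [iterate_succ_apply']
      refine ⟨hZmem _ h1, ?_⟩
      rw [hΘZ _ h1, h2, add_sub_cancel_left, smul_smul, pow_succ']
  obtain ⟨r, hr⟩ := hZ.isBounded.subset_closedBall v
  obtain ⟨k, hk⟩ : ∃ k : ℕ, (1 - c) ^ k * (|r| + 1) < η := by
    have h1 : Tendsto (fun k : ℕ => (1 - c) ^ k * (|r| + 1)) atTop (𝓝 (0 * (|r| + 1))) :=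
      (tendsto_pow_atTop_nhds_zero_of_lt_one (by linarith) (by linarith)).mul_const _
    rw [zero_mul] at h1
    exact (h1.eventually (gt_mem_nhds hη)).exists
  refine ⟨Θ^[k], C₀, hC, hCW, isDf_iterate hD k, fun x hx => ?_, ?_⟩
  · have h1 : Θ x = x := by simp [hΘ, hχ0 x hx]
    exact iterate_fixed h1 k
  · rintro _ ⟨x, hx, rfl⟩
    rw [(hit k x hx).2, mem_ball, dist_eq_norm, add_sub_cancel_left, norm_smul,
      Real.norm_of_nonneg (pow_nonneg (by linarith) k)]
    refine lt_of_le_of_lt (mul_le_mul_of_nonneg_left ?_ (pow_nonneg (by linarith) k)) hk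
    have h2 := hr hx
    rw [mem_closedBall, dist_eq_norm] at h2
    linarith [le_abs_self r]

/-- the collapse of the unit ball -/
theorem collapse (n : ℕ) : ∃ R : E n → E n, ContDiff ℝ ∞ R ∧ (∀ z, ‖z‖ ≤ 1 → R z = 0) ∧
    (∀ z, 2 ≤ ‖z‖ → R z = z) ∧ (∀ z, 1 < ‖z‖ → LD n R z ∧ R z ≠ 0) ∧
    (∀ z w, 1 < ‖z‖ → R z = R w → z = w) ∧ ∀ y, ∃ z, R z = y := by
  set ρ : ℝ → ℝ := fun t => Real.smoothTransition ((t - 1) / 3) with hρ
  have hm : Monotone ρ := fun s t h => Real.smoothTransition.monotone (by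
    apply div_le_div_of_nonneg_right _ (by norm_num)
    linarith)
  have hp : ∀ t, 1 < t → 0 < ρ t := fun t ht => Real.smoothTransition.pos_of_pos (by
    apply div_pos _ (by norm_num)
    linarith)
  have h1 : ∀ t, 4 ≤ t → ρ t = 1 := fun t ht => Real.smoothTransition.one_of_one_le (by
    rw [le_div_iff₀ (by norm_num)]
    linarith)
  have hz : ∀ t, t ≤ 1 → ρ t = 0 := fun t ht => Real.smoothTransition.zero_of_nonpos (by
    apply div_nonpos_of_nonpos_of_nonneg _ (by norm_num)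
    linarith)
  have h0 : ∀ t, 0 ≤ ρ t := fun t => Real.smoothTransition.nonneg _
  have hs : ContDiff ℝ ∞ ρ := Real.smoothTransition.contDiff.comp
    ((contDiff_id.sub contDiff_const).div_const _)
  set f : E n → E n := fun y => ρ (‖y‖ ^ 2) • y with hf
  have hnorm : ∀ y, ‖f y‖ = ρ (‖y‖ ^ 2) * ‖y‖ := fun y => by
    rw [hf, norm_smul, Real.norm_of_nonneg (h0 _)]
  have hstrict : ∀ s t : ℝ, 0 ≤ s → 1 < t → s < t → ρ (s ^ 2) * s < ρ (t ^ 2) * t := by
    intro s t hs0 ht1 hst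
    have ht : 0 < t := hs0.trans_lt hst
    have h2 : ρ (s ^ 2) ≤ ρ (t ^ 2) := hm (by nlinarith)
    have h3 := hp (t ^ 2) (by nlinarith)
    nlinarith
  have hcd : ContDiff ℝ ∞ f := (hs.comp (contDiff_norm_sq ℝ)).smul contDiff_id
  have hfid : ∀ y, 2 ≤ ‖y‖ → f y = y := fun y hy => by
    simp only [hf, h1 _ (by nlinarith : 4 ≤ ‖y‖ ^ 2), one_smul]
  have hf0 : ∀ y, ‖y‖ ≤ 1 → f y = 0 := fun y hy => by
    simp only [hf, hz _ (by nlinarith [norm_nonneg y] : ‖y‖ ^ 2 ≤ 1), zero_smul]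
  refine ⟨f, hcd, hf0, hfid, fun y hy1 => ⟨?_, ?_⟩, ?_, ?_⟩
  · have hyp : 0 < ‖y‖ := by linarith
    have h2 : HasDerivAt ρ (deriv ρ (‖y‖ ^ 2)) (‖y‖ ^ 2) :=
      (hs.differentiable (by simp) _).hasDerivAt
    have h3 : HasFDerivAt (fun z : E n => ‖z‖ ^ 2) (2 • (innerSL ℝ y)) y :=
      (hasStrictFDerivAt_norm_sq y).hasFDerivAt
    have h4 := (h2.comp_hasFDerivAt y h3).smul (hasFDerivAt_id y)
    have h5 : fderiv ℝ f y = _ := HasFDerivAt.fderiv h4
    have hval : ∀ v : E n, fderiv ℝ f y v =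
        ρ (‖y‖ ^ 2) • v + (deriv ρ (‖y‖ ^ 2) * (2 * inner ℝ y v)) • y := by
      intro v
      rw [h5]
      simp [innerSL_apply_apply]
    have hρ' : 0 ≤ deriv ρ (‖y‖ ^ 2) := hm.deriv_nonneg
    have hpy : 0 < ρ (‖y‖ ^ 2) := hp (‖y‖ ^ 2) (by nlinarith)
    have hinj' : Injective (fderiv ℝ f y) := by
      rw [injective_iff_map_eq_zero]
      intro v hv
      rw [hval] at hv
      have h6 : inner ℝ y v * (ρ (‖y‖ ^ 2) + 2 * deriv ρ (‖y‖ ^ 2) * ‖y‖ ^ 2) = 0 := by
        have h7 := congrArg (fun w => inner ℝ y w) hv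
        simp only [inner_add_right, inner_smul_right, real_inner_self_eq_norm_sq,
          inner_zero_right] at h7
        linarith
      have h8 : 0 < ρ (‖y‖ ^ 2) + 2 * deriv ρ (‖y‖ ^ 2) * ‖y‖ ^ 2 := by positivity
      have h9 : inner ℝ y v = 0 := (mul_eq_zero.1 h6).resolve_right h8.ne'
      rw [h9, mul_zero, mul_zero, zero_smul, add_zero] at hv
      exact (smul_eq_zero.1 hv).resolve_left hpy.ne'
    have hsurj' : Surjective (fderiv ℝ f y) := (LinearMap.injective_iff_surjective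
      (f := (fderiv ℝ f y : E n →ₗ[ℝ] E n))).1 hinj'
    refine LD_of_contDiffAt ?_ (ContinuousLinearEquiv.ofBijective (fderiv ℝ f y)
      (LinearMap.ker_eq_bot.2 hinj') (LinearMap.range_eq_top.2 hsurj'))
      (hcd.differentiable (by simp) y).hasFDerivAt
    exact Eventually.of_forall fun z => hcd.contDiffAt
  · have h2 : 0 < ‖f y‖ := by
      rw [hnorm]
      exact mul_pos (hp _ (by nlinarith)) (by linarith)
    exact norm_pos_iff.1 h2
  · intro y z hy hyz
    have h2 : ‖f y‖ = ‖f z‖ := by rw [hyz]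
    rw [hnorm, hnorm] at h2
    have hz1 : 1 < ‖z‖ := by
      by_contra hcon
      rw [not_lt] at hcon
      rw [hz (‖z‖ ^ 2) (by nlinarith [norm_nonneg z]), zero_mul] at h2
      have h3 : 0 < ρ (‖y‖ ^ 2) * ‖y‖ := mul_pos (hp _ (by nlinarith)) (by linarith)
      linarith
    have h3 : ‖y‖ = ‖z‖ := by
      rcases lt_trichotomy ‖y‖ ‖z‖ with h | h | h
      · exact absurd h2 (hstrict _ _ (norm_nonneg _) hz1 h).ne
      · exact h
      · exact absurd h2 (hstrict _ _ (norm_nonneg _) hy h).ne'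
    simp only [hf, h3] at hyz
    exact smul_right_injective _ (hp _ (by nlinarith)).ne' hyz
  · intro z
    by_cases hz2 : 2 ≤ ‖z‖
    · exact ⟨z, hfid z hz2⟩
    · push Not at hz2
      by_cases hz0 : z = 0
      · exact ⟨0, by rw [hz0]; simp [hf]⟩
      · have hzp : 0 < ‖z‖ := norm_pos_iff.2 hz0
        set u : E n := ‖z‖⁻¹ • z with hu
        have hun : ‖u‖ = 1 := by
          rw [hu, norm_smul, norm_inv, norm_norm, inv_mul_cancel₀ hzp.ne']
        have hfu : ∀ t : ℝ, 0 ≤ t → f (t • u) = (ρ (t ^ 2) * t) • u := by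
          intro t ht
          simp only [hf, norm_smul, hun, mul_one, Real.norm_of_nonneg ht, smul_smul]
        have hc2 : ContinuousOn (fun t : ℝ => ‖f (t • u)‖) (Icc 0 2) :=
          (hcd.continuous.comp (continuous_id.smul continuous_const)).norm.continuousOn
        have h2 := intermediate_value_Icc (by norm_num : (0 : ℝ) ≤ 2) hc2
        have h3 : ‖z‖ ∈ Icc ‖f ((0 : ℝ) • u)‖ ‖f ((2 : ℝ) • u)‖ := by
          constructor
          · rw [hfu 0 le_rfl, mul_zero, zero_smul, norm_zero]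
            exact hzp.le
          · have h4 : ‖(2 : ℝ) • u‖ = 2 := by
              rw [norm_smul, hun, mul_one, Real.norm_of_nonneg zero_le_two]
            rw [hfid _ h4.ge, h4]
            exact hz2.le
        obtain ⟨t, ht, htz⟩ := h2 h3
        refine ⟨t • u, ?_⟩
        have h4 : ρ (t ^ 2) * t = ‖z‖ := by
          have h5 : ‖f (t • u)‖ = ‖z‖ := htz
          rw [← h5, hfu t ht.1, norm_smul, hun, mul_one,
            Real.norm_of_nonneg (mul_nonneg (h0 _) ht.1)]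
        rw [hfu t ht.1, h4, hu, smul_smul, mul_inv_cancel₀ hzp.ne', one_smul]

end Pool.Agent.H829.CS
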