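import Pool.Agent.H829.CS.Main

/-!
# Manifolds with diffeomorphic complements of sets of area zero: the collapse
-/

set_option autoImplicit false

open Set Filter Topology Metric Function MeasureTheory
open scoped Manifold ContDiff NNReal ENNReal

noncomputable section

namespace Pool.Agent.H829.CS

open Pool.Agent.Y522 Pool.Agent.N550.KH Pool.Agent.N550.TS Pool.Agent.H829.AZ

/-- collapsing the unit ball of a cell -/
theorem collapse_cell {n : ℕ} {N : Type} [TopologicalSpace N] [T2Space N] [ChartedSpace (E n) N]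
    {e : E n → N} (he : IsCell n e) : ∃ K : N → N, Continuous K ∧
      (∀ y, y ∉ e '' closedBall 0 2 → K y = y) ∧ (∀ y ∈ e '' closedBall 0 1, K y = e 0) ∧
      (∀ y, y ∉ e '' closedBall 0 1 → LD n K y ∧ K y ≠ e 0) ∧
      (∀ y y', y ∉ e '' closedBall 0 1 → K y = K y' → y = y') ∧
      ∀ w, w ≠ e 0 → ∃ y, y ∉ e '' closedBall 0 1 ∧ K y = w := by
  classical
  obtain ⟨R, hR, hR0, hRid, hRl, hRi, hRs⟩ := collapse n
  have hcc := he.cont
  have hro := he.open_range
  let K : N → N := fun y => if y ∈ range e then e (R (invFun e y)) else y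
  have hK1 : ∀ z, K (e z) = e (R z) := fun z => by
    show (if e z ∈ range e then e (R (invFun e (e z))) else e z) = e (R z)
    rw [if_pos (mem_range_self z), Two.inv_app he.1]
  have hK2 : ∀ y, y ∉ range e → K y = y := fun y hy => if_neg hy
  have hKid : ∀ y, y ∉ e '' closedBall 0 2 → K y = y := by
    intro y hy
    by_cases hye : y ∈ range e
    · obtain ⟨z, rfl⟩ := hye
      rw [hK1, hRid z]
      by_contra hcon
      exact hy ⟨z, mem_closedBall_zero_iff.2 (not_le.1 hcon).le, rfl⟩
    · exact hK2 y hye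
  have hKr : ∀ y, K y ∈ range e ↔ y ∈ range e := by
    intro y
    constructor
    · intro h
      by_contra hcon
      rw [hK2 y hcon] at h
      exact hcon h
    · rintro ⟨z, rfl⟩
      rw [hK1]
      exact mem_range_self _
  have hcl2 : IsClosed (e '' closedBall 0 2) := ((isCompact_closedBall _ _).image hcc).isClosed
  have hev1 : ∀ z, K =ᶠ[𝓝 (e z)] fun y => e (R (invFun e y)) := by
    intro z
    filter_upwards [hro.mem_nhds (mem_range_self z)] with y hy
    exact if_pos hy
  have hev2 : ∀ y, y ∉ range e → K =ᶠ[𝓝 y] fun y => y := by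
    intro y hy
    have h1 : y ∉ e '' closedBall 0 2 := fun h => hy (image_subset_range _ _ h)
    filter_upwards [hcl2.isOpen_compl.mem_nhds h1] with w hw
    exact hKid w hw
  refine ⟨K, ?_, hKid, ?_, ?_, ?_, ?_⟩
  · rw [continuous_iff_continuousAt]
    intro y
    by_cases hy : y ∈ range e
    · obtain ⟨z, rfl⟩ := hy
      refine ContinuousAt.congr ?_ (hev1 z).symm
      have h1 : ContinuousAt (invFun e) (e z) := (Two.ld_inv he.1 he.2 z).continuousAt
      exact ContinuousAt.comp (g := fun w => e (R w)) (hcc.comp hR.continuous).continuousAt h1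
    · exact ContinuousAt.congr continuousAt_id (hev2 y hy).symm
  · rintro _ ⟨z, hz, rfl⟩
    rw [hK1, hR0 z (mem_closedBall_zero_iff.1 hz)]
  · intro y hy
    by_cases hye : y ∈ range e
    · obtain ⟨z, rfl⟩ := hye
      have hz : 1 < ‖z‖ := by
        by_contra hcon
        exact hy ⟨z, mem_closedBall_zero_iff.2 (not_lt.1 hcon), rfl⟩
      constructor
      · refine LD.congr ?_ (hev1 z)
        refine LD.comp_fun (g := e) (f := fun y => R (invFun e y)) (he.2 _) ?_
        refine LD.comp_fun (g := R) (f := invFun e) ?_ (Two.ld_inv he.1 he.2 z)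
        rw [Two.inv_app he.1]
        exact (hRl z hz).1
      · rw [hK1]
        exact fun h => (hRl z hz).2 (he.1 h)
    · refine ⟨LD.congr (LD.id y) (hev2 y hye), ?_⟩
      rw [hK2 y hye]
      rintro rfl
      exact hye (mem_range_self 0)
  · intro y y' hy hyy
    by_cases hye : y ∈ range e
    · have hye' : y' ∈ range e := by
        rw [← hKr, ← hyy, hKr]
        exact hye
      obtain ⟨z, rfl⟩ := hye
      obtain ⟨z', rfl⟩ := hye'
      have hz : 1 < ‖z‖ := by
        by_contra hcon
        exact hy ⟨z, mem_closedBall_zero_iff.2 (not_lt.1 hcon), rfl⟩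
      rw [hK1, hK1] at hyy
      rw [hRi z z' hz (he.1 hyy)]
    · have hye' : y' ∉ range e := by
        rw [← hKr, ← hyy, hKr]
        exact hye
      rw [hK2 y hye, hK2 y' hye'] at hyy
      exact hyy
  · intro w hw
    by_cases hwe : w ∈ range e
    · obtain ⟨v, rfl⟩ := hwe
      obtain ⟨z, hz⟩ := hRs v
      refine ⟨e z, ?_, by rw [hK1, hz]⟩
      rintro ⟨z', hz', hzz⟩
      have h1 : z' = z := he.1 hzz
      rw [h1, mem_closedBall_zero_iff] at hz'
      rw [hR0 z hz'] at hz
      exact hw (by rw [← hz])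
    · exact ⟨w, fun h => hwe (image_subset_range _ _ h), hK2 w hwe⟩

/-- **The general theorem.** -/
theorem Cmp.final {m : ℕ} (hm : 3 ≤ m) {M N : Type} [TopologicalSpace M] [T2Space M]
    [ChartedSpace (E (m + 1)) M] [IsManifold (𝓡 (m + 1)) ∞ M] [TopologicalSpace N] [T2Space N]
    [ChartedSpace (E (m + 1)) N] [IsManifold (𝓡 (m + 1)) ∞ N] [ConnectedSpace N]
    {φ : M → N} {S : Set M} {T : Set N} (h : Cmp (m + 1) φ S T)
    (hS : IsCompact S) (hT : IsCompact T) {eM : E (m + 1) → M} (heM : IsCell (m + 1) eM)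
    (hSe : S ⊆ range eM) {eN : E (m + 1) → N} (heN : IsCell (m + 1) eN) (hTe : T ⊆ range eN)
    (hS0 : Measure.hausdorffMeasure 2 (eM ⁻¹' S) = 0)
    (hT0 : Null2 (m + 1) T) :
    ∃ (G : M ≃ₜ N) (x₀ : M), (∀ x, x ≠ x₀ → LD (m + 1) G x) ∧
      ∀ x, ContMDiffAt (𝓡 (m + 1)) (𝓡 (m + 1)) ∞ G x := by
  classical
  have : LocallyCompactSpace N := ChartedSpace.locallyCompactSpace (E (m + 1)) N
  have hn : 4 ≤ m + 1 := by omega
  obtain ⟨e, he, hTE, hEM⟩ := h.engulf hn hS hT heM hSe heN hTe hS0 (hT0 eN heN.1 heN.2)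
  obtain ⟨K, hKc, hKid, hK0, hKl, hKi, hKs⟩ := collapse_cell he
  have hcc := he.cont
  let g : M → N := fun x => if x ∈ S then e 0 else K (φ x)
  have hg1 : ∀ x ∈ S, g x = e 0 := fun x hx => if_pos hx
  have hg2 : ∀ x, x ∉ S → g x = K (φ x) := fun x hx => if_neg hx
  have hgev : ∀ x, x ∉ S → g =ᶠ[𝓝 x] fun x => K (φ x) := by
    intro x hx
    filter_upwards [hS.isClosed.isOpen_compl.mem_nhds hx] with y hy
    exact hg2 y hy
  -- the fibre
  have hne : ∀ x, g x ≠ e 0 → x ∉ S ∧ φ x ∉ e '' closedBall 0 1 := by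
    intro x hx
    have h1 : x ∉ S := fun h => hx (hg1 x h)
    refine ⟨h1, fun h2 => hx ?_⟩
    rw [hg2 x h1, hK0 _ h2]
  have hfib : g ⁻¹' {e 0} ⊆ range eM := by
    intro x hx
    have hx' : g x = e 0 := hx
    by_cases hxS : x ∈ S
    · exact hSe hxS
    · rw [hg2 x hxS] at hx'
      by_cases h2 : φ x ∈ e '' closedBall 0 1
      · obtain ⟨z, -, hz⟩ := h2
        have h3 : e z ∉ T := by
          rw [hz]
          exact h.notMem hxS
        obtain ⟨x', hx'M, hx'S, hxx⟩ := hEM z h3
        have h4 : x' = x := h.inj hx'S hxS (hxx.trans hz)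
        rw [← h4]
        exact hx'M
      · exact absurd hx' (hKl _ h2).2
  have hgld : ∀ x, g x ≠ e 0 → LD (m + 1) g x := by
    intro x hx
    obtain ⟨h1, h2⟩ := hne x hx
    refine LD.congr ?_ (hgev x h1)
    exact LD.comp_fun (g := K) (f := φ) (hKl _ h2).1 (h.ld x h1)
  have hgc : Continuous g := by
    rw [continuous_iff_continuousAt]
    intro x
    by_cases hx : x ∈ S
    · have h1 := (h.near (e '' ball 0 1) (isOpen_image_of_LD isOpen_ball fun z _ => he.2 z)
        hTE).filter_mono (nhds_le_nhdsSet hx)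
      have h2 : (fun _ => e 0) =ᶠ[𝓝 x] g := by
        filter_upwards [h1] with y hy
        by_cases hyS : y ∈ S
        · exact (hg1 y hyS).symm
        · rw [hg2 y hyS]
          exact (hK0 _ (image_mono ball_subset_closedBall (hy hyS))).symm
      exact ContinuousAt.congr continuousAt_const h2
    · refine ContinuousAt.congr ?_ (hgev x hx).symm
      exact ContinuousAt.comp (g := K) hKc.continuousAt (h.ld x hx).continuousAt
  have hgp : IsProperMap g := by
    rw [isProperMap_iff_isCompact_preimage]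
    refine ⟨hgc, fun L hL => ?_⟩
    have h1 : φ ⁻¹' (L ∪ e '' closedBall 0 2)ᶜ ∈ cocompact M :=
      h.prop (hL.union ((isCompact_closedBall _ _).image hcc)).compl_mem_cocompact
    obtain ⟨L', hL', hLL'⟩ := mem_cocompact.1 h1
    refine (hS.union hL').of_isClosed_subset (hL.isClosed.preimage hgc) ?_
    intro x hx
    by_cases hxS : x ∈ S
    · exact Or.inl hxS
    · right
      by_contra hcon
      refine hLL' hcon ?_
      by_cases h2 : φ x ∈ e '' closedBall 0 2
      · exact Or.inr h2
      · left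
        have h3 : g x ∈ L := hx
        rwa [hg2 x hxS, hKid _ h2] at h3
  have hgs : Surjective g := by
    intro y
    by_cases hy : y = e 0
    · obtain ⟨z, hz, hzT⟩ : ∃ z ∈ ball (0 : E (m + 1)) 1, e z ∉ T := by
        by_contra hcon
        push Not at hcon
        have h1 : Measure.hausdorffMeasure 2 (ball (0 : E (m + 1)) 1) = 0 :=
          measure_mono_null (fun z hz => hcon z hz) (hT0 e he.1 he.2)
        have h2 := open_null isOpen_ball (by omega) h1
        have h3 : (0 : E (m + 1)) ∈ (∅ : Set (E (m + 1))) := by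
          rw [← h2]
          exact mem_ball_self one_pos
        exact h3
      obtain ⟨x, hx, hxz⟩ := h.exists_pre hzT
      refine ⟨x, ?_⟩
      rw [hg2 x hx, hxz, hK0 _ ⟨z, ball_subset_closedBall hz, rfl⟩, hy]
    · obtain ⟨w, hw, hwy⟩ := hKs y hy
      obtain ⟨x, hx, hxw⟩ := h.exists_pre (y := w) fun hwT =>
        hw (image_mono ball_subset_closedBall (hTE hwT))
      exact ⟨x, by rw [hg2 x hx, hxw, hwy]⟩
  have hsing : Pool.Agent.X175.SH.Sing (m + 1) g {e 0} :=
    { proper := hgp
      surj := hgs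
      closed := isClosed_singleton
      null := by
        have h0 : Pool.Agent.X175.SH.NullM (m + 1) (∅ : Set N) := fun c _ => by
          rw [preimage_empty]
          exact measure_empty
        have h1 := h0.union_finite (finite_singleton (e 0))
        rwa [empty_union] at h1
      inj := by
        intro x y hx hxy
        have hx' : g x ≠ e 0 := hx
        have hy' : g y ≠ e 0 := by rw [← hxy]; exact hx'
        obtain ⟨h1, h2⟩ := hne x hx'
        obtain ⟨h3, -⟩ := hne y hy'
        rw [hg2 x h1, hg2 y h3] at hxy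
        exact h.inj h1 h3 (hKi _ _ h2 hxy)
      ld := fun x hx => hgld x hx
      fib := by
        rintro _ rfl
        refine ⟨range eM, invFun eM, heM.open_range, hfib, ?_, ?_⟩
        · rintro _ ⟨z, rfl⟩ _ ⟨w, rfl⟩ hzw
          rw [Two.inv_app heM.1, Two.inv_app heM.1] at hzw
          rw [hzw]
        · rintro _ ⟨z, rfl⟩
          exact Two.ld_inv heM.1 heM.2 z }
  exact Pool.Agent.X175.SH.null_final (m := m) hsing isCompact_singleton

/-- diffeomorphisms of complements in compact manifolds -/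
theorem cmp_compact {n : ℕ} {M N : Type} [TopologicalSpace M] [T2Space M] [CompactSpace M]
    [ChartedSpace (E n) M] [TopologicalSpace N] [T2Space N] [CompactSpace N]
    [ChartedSpace (E n) N] {φ : M → N} {S : Set M} {T : Set N} (hS : IsClosed S)
    (hi : InjOn φ Sᶜ) (hl : ∀ x, x ∉ S → LD n φ x) (himg : φ '' Sᶜ = Tᶜ) :
    Cmp n φ S T := by
  refine ⟨hi, hl, himg, ?_, fun V hV hTV => ?_⟩
  · rw [cocompact_eq_bot]
    exact tendsto_bot
  · rcases isEmpty_or_nonempty M with hM | hM
    · exact Eventually.of_forall fun x => (hM.false x).elim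
    have hleft : ∀ x, x ∉ S → invFunOn φ Sᶜ (φ x) = x := fun x hx =>
      hi (invFunOn_mem ⟨x, hx, rfl⟩) hx (invFunOn_eq ⟨x, hx, rfl⟩)
    have hpre : ∀ y, y ∉ T → ∃ x, x ∉ S ∧ φ x = y := by
      intro y hy
      have h1 : y ∈ φ '' Sᶜ := by
        rw [himg]
        exact hy
      exact h1
    have hc : IsCompact (invFunOn φ Sᶜ '' Vᶜ) := by
      refine hV.isClosed_compl.isCompact.image_of_continuousOn fun y hy => ?_
      obtain ⟨x, hx, rfl⟩ := hpre y fun hyT => hy (hTV hyT)
      exact (LD.inverse hS.isOpen_compl (fun z hz => hl z hz) (fun z hz => hleft z hz)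
        hx).continuousAt.continuousWithinAt
    have hsub : S ⊆ (invFunOn φ Sᶜ '' Vᶜ)ᶜ := by
      rintro x hx ⟨y, hy, rfl⟩
      obtain ⟨x', hx', rfl⟩ := hpre y fun hyT => hy (hTV hyT)
      rw [hleft x' hx'] at hx
      exact hx' hx
    filter_upwards [hc.isClosed.isOpen_compl.mem_nhdsSet.2 hsub] with x hx hxS
    by_contra hcon
    exact hx ⟨φ x, hcon, hleft x hxS⟩

end Pool.Agent.H829.CS
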