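import Pool.Agent.H829.CS.Contr

/-!
# Compression of sets of area zero towards graphs
-/

set_option autoImplicit false

open Set Filter Topology Metric Function MeasureTheory
open scoped Manifold ContDiff NNReal

noncomputable section

namespace Pool.Agent.H829.CS

open Pool.Agent.Y522 Pool.Agent.N550.KH Pool.Agent.N550.TS Pool.Agent.H829.AZ
open Pool.Agent.X175.SH (dif_small)

/-- the scalar dynamics -/
def th (c t : ℝ) : ℝ := t + c * (Real.sin (2 * Real.pi * t) / (2 * Real.pi))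

theorem th_contr {c : ℝ} (hc0 : 0 < c) (hc1 : c < 1) {μ : ℝ} (hμ : 0 ≤ μ) (k : ℤ) {t : ℝ}
    (ht : |t - k - 1 / 2| ≤ 1 / 2) (hμt : μ ≤ Real.cos (Real.pi * (t - k - 1 / 2))) :
    |th c t - k - 1 / 2| ≤ (1 - 2 * c * μ / Real.pi) * |t - k - 1 / 2| := by
  have hpi := Real.pi_pos
  set z : ℝ := t - k - 1 / 2 with hz
  have h1 : Real.sin (2 * Real.pi * t) = - Real.sin (2 * Real.pi * z) := by
    have h2 : 2 * Real.pi * t = 2 * Real.pi * z + Real.pi + k * (2 * Real.pi) := by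
      rw [hz]
      ring
    rw [h2, Real.sin_add_int_mul_two_pi, Real.sin_add_pi]
  have h2 : th c t - k - 1 / 2 = z - c * (Real.sin (2 * Real.pi * z) / (2 * Real.pi)) := by
    rw [th, h1, hz]
    ring
  rw [h2]
  -- the case `0 ≤ z`
  have key : ∀ w : ℝ, 0 ≤ w → w ≤ 1 / 2 → μ ≤ Real.cos (Real.pi * w) →
      0 ≤ w - c * (Real.sin (2 * Real.pi * w) / (2 * Real.pi)) ∧
      w - c * (Real.sin (2 * Real.pi * w) / (2 * Real.pi)) ≤ (1 - 2 * c * μ / Real.pi) * w := by
    intro w hw0 hw1 hwμ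
    have h3 : Real.sin (2 * Real.pi * w) ≤ 2 * Real.pi * w := Real.sin_le (by positivity)
    have h4 : 2 * w ≤ Real.sin (Real.pi * w) := by
      have h5 := Real.mul_le_sin (x := Real.pi * w) (by positivity) (by nlinarith)
      have h6 : 2 / Real.pi * (Real.pi * w) = 2 * w := by field_simp
      linarith
    have h5 : Real.sin (2 * Real.pi * w) = 2 * Real.sin (Real.pi * w) * Real.cos (Real.pi * w) := by
      rw [← Real.sin_two_mul]
      ring_nf
    constructor
    · have h6 : Real.sin (2 * Real.pi * w) / (2 * Real.pi) ≤ w := by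
        rw [div_le_iff₀ (by positivity)]
        linarith
      nlinarith
    · have h7 : 4 * μ * w ≤ Real.sin (2 * Real.pi * w) := by
        rw [h5]
        nlinarith [mul_le_mul h4 hwμ hμ (le_trans (by positivity) h4)]
      have h8 : 2 * μ * w / Real.pi ≤ Real.sin (2 * Real.pi * w) / (2 * Real.pi) := by
        rw [div_le_div_iff₀ hpi (by positivity)]
        nlinarith
      have h9 : (1 - 2 * c * μ / Real.pi) * w = w - c * (2 * μ * w / Real.pi) := by ring
      rw [h9]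
      nlinarith
  rcases le_total 0 z with h | h
  · rw [abs_of_nonneg h] at ht ⊢
    obtain ⟨h3, h4⟩ := key z h ht hμt
    rw [abs_of_nonneg h3]
    exact h4
  · have h3 : Real.pi * -z = -(Real.pi * z) := by ring
    obtain ⟨h4, h5⟩ := key (-z) (by linarith) (by rw [abs_of_nonpos h] at ht; exact ht)
      (by rw [h3, Real.cos_neg]; exact hμt)
    have h6 : Real.sin (2 * Real.pi * -z) = - Real.sin (2 * Real.pi * z) := by
      rw [← Real.sin_neg]
      ring_nf
    rw [h6] at h4 h5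
    rw [abs_of_nonpos h, ← abs_neg, abs_of_nonneg (by
      have : -(z - c * (Real.sin (2 * Real.pi * z) / (2 * Real.pi))) =
        -z - c * (-Real.sin (2 * Real.pi * z) / (2 * Real.pi)) := by ring
      rw [this]
      exact h4)]
    have : -(z - c * (Real.sin (2 * Real.pi * z) / (2 * Real.pi))) =
        -z - c * (-Real.sin (2 * Real.pi * z) / (2 * Real.pi)) := by ring
    rw [this]
    exact h5

theorem th_iter {c : ℝ} (hc0 : 0 < c) (hc1 : c < 1) {μ : ℝ} (hμ : 0 ≤ μ) (hμ1 : μ ≤ 1) (k : ℤ)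
    {t : ℝ} (ht : |t - k - 1 / 2| ≤ 1 / 2) (hμt : μ ≤ Real.cos (Real.pi * (t - k - 1 / 2)))
    (m : ℕ) :
    |(th c)^[m] t - k - 1 / 2| ≤ (1 - 2 * c * μ / Real.pi) ^ m * |t - k - 1 / 2| := by
  have hpi := Real.pi_pos
  have hpi3 := Real.pi_gt_three
  have hq0 : 0 ≤ 1 - 2 * c * μ / Real.pi := by
    rw [sub_nonneg, div_le_one hpi]
    nlinarith
  have hq1 : 1 - 2 * c * μ / Real.pi ≤ 1 := by
    have : 0 ≤ 2 * c * μ / Real.pi := by positivity
    linarith
  induction m with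
  | zero => simp
  | succ m ih =>
    rw [iterate_succ_apply']
    have h1 : |(th c)^[m] t - k - 1 / 2| ≤ |t - k - 1 / 2| :=
      ih.trans (mul_le_of_le_one_left (abs_nonneg _) (pow_le_one₀ hq0 hq1))
    have h2 : μ ≤ Real.cos (Real.pi * ((th c)^[m] t - k - 1 / 2)) := by
      refine hμt.trans ?_
      rw [← Real.cos_abs (Real.pi * (t - k - 1 / 2)),
        ← Real.cos_abs (Real.pi * ((th c)^[m] t - k - 1 / 2)), abs_mul, abs_mul,
        abs_of_pos hpi]
      refine Real.cos_le_cos_of_nonneg_of_le_pi (by positivity) (by nlinarith) ?_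
      exact mul_le_mul_of_nonneg_left h1 hpi.le
    refine (th_contr hc0 hc1 hμ k (h1.trans ht) h2).trans ?_
    have h3 := mul_le_mul_of_nonneg_left ih hq0
    rwa [← mul_assoc, ← pow_succ'] at h3

/-- the neighbourhood of `T` -/
def Box {n : ℕ} (T : Set (E n)) : Set (E n) := {y | ∃ x ∈ T, ∀ i, |y i - x i| ≤ 1}

/-- the graph -/
def Gam {n : ℕ} (T : Set (E n)) : Set (E n) :=
  {y | y ∈ Box T ∧ ∃ i, ∀ j, j ≠ i → ∃ k : ℤ, y j = (k : ℝ) + 1 / 2}

theorem norm_le_of_coord {n : ℕ} {d : E n} {ε : ℝ} (hε : 0 ≤ ε) (h : ∀ i, |d i| ≤ ε) :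
    ‖d‖ ≤ √n * ε := by
  have h1 : ‖d‖ ^ 2 ≤ (√n * ε) ^ 2 := by
    rw [EuclideanSpace.norm_sq_eq, mul_pow, Real.sq_sqrt (Nat.cast_nonneg n)]
    calc ∑ i, ‖d i‖ ^ 2 ≤ ∑ _i : Fin n, ε ^ 2 := by
          refine Finset.sum_le_sum fun i _ => ?_
          rw [Real.norm_eq_abs]
          exact pow_le_pow_left₀ (abs_nonneg _) (h i) 2
      _ = n * ε ^ 2 := by simp
  exact (pow_le_pow_iff_left₀ (norm_nonneg _) (by positivity) two_ne_zero).1 h1

theorem coord_cont {n : ℕ} (i : Fin n) : Continuous fun x : E n => x i :=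
  (EuclideanSpace.proj (𝕜 := ℝ) i).continuous

theorem box_compact {n : ℕ} {T : Set (E n)} (hT : IsCompact T) : IsCompact (Box T) := by
  have h1 : IsCompact {d : E n | ∀ i, |d i| ≤ 1} := by
    refine Metric.isCompact_of_isClosed_isBounded ?_ ?_
    · rw [ofPred_forall]
      exact isClosed_iInter fun i => isClosed_le (coord_cont i).abs continuous_const
    · refine (Metric.isBounded_closedBall (x := (0 : E n)) (r := √n * 1)).subset ?_
      intro d hd
      rw [mem_closedBall_zero_iff]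
      exact norm_le_of_coord zero_le_one hd
  have h2 : Box T = (fun p : E n × E n => p.1 + p.2) '' (T ×ˢ {d : E n | ∀ i, |d i| ≤ 1}) := by
    ext y
    constructor
    · rintro ⟨x, hx, hy⟩
      refine ⟨(x, y - x), ⟨hx, fun i => ?_⟩, by simp⟩
      simpa using hy i
    · rintro ⟨⟨x, d⟩, ⟨hx, hd⟩, rfl⟩
      refine ⟨x, hx, fun i => ?_⟩
      have h3 := hd i
      simpa using h3
  rw [h2]
  exact (hT.prod h1).image continuous_add

theorem gam_compact {n : ℕ} {T : Set (E n)} (hT : IsCompact T) : IsCompact (Gam T) := by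
  have hcl : IsClosed {y : E n | ∃ i, ∀ j, j ≠ i → ∃ k : ℤ, y j = (k : ℝ) + 1 / 2} := ?_
  · exact (box_compact hT).inter_right hcl
  rw [ofPred_exists]
  refine isClosed_iUnion_of_finite fun i => ?_
  rw [ofPred_forall]
  refine isClosed_iInter fun j => ?_
  by_cases hj : j = i
  · simp [hj]
  · have h1 : {y : E n | j ≠ i → ∃ k : ℤ, y j = (k : ℝ) + 1 / 2} =
        (fun y : E n => y j - 1 / 2) ⁻¹' range ((↑) : ℤ → ℝ) := by
      ext y
      constructor
      · intro h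
        obtain ⟨k, hk⟩ := h hj
        refine ⟨k, ?_⟩
        show (k : ℝ) = y j - 1 / 2
        rw [hk]
        ring
      · rintro ⟨k, hk⟩ -
        have hk' : (k : ℝ) = y j - 1 / 2 := hk
        exact ⟨k, by linarith⟩
    rw [h1]
    exact Int.isClosedEmbedding_coe_real.isClosed_range.preimage
      ((coord_cont j).sub continuous_const)

/-- compression, normalised -/
theorem compress_norm {n : ℕ} (hn : 0 < n) {T O : Set (E n)} (hT : IsCompact T) (hO : IsOpen O)
    (hTO : Box T ⊆ O)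
    (hint : ∀ x ∈ T, ∀ i j : Fin n, i ≠ j → ∀ k l : ℤ, ¬ (2 * x i = k ∧ 2 * x j = l)) :
    ∃ C₀ : Set (E n), IsCompact C₀ ∧ C₀ ⊆ O ∧ ∀ V : Set (E n), IsOpen V → Gam T ⊆ V →
      ∃ Ψ : E n → E n, IsDf n Ψ ∧ (∀ x, x ∉ C₀ → Ψ x = x) ∧ Ψ '' T ⊆ V := by
  have hpi := Real.pi_pos
  obtain ⟨χ, C₀, hχ, hC, hCO, hχ0, hχ1⟩ := cutoff (box_compact hT) hO hTO
  refine ⟨C₀, hC, hCO, fun V hV hGV => ?_⟩
  -- the field
  set S : E n → E n := fun x => WithLp.toLp 2 fun i => Real.sin (2 * Real.pi * x i) / (2 * Real.pi)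
    with hS
  have hSc : ContDiff ℝ ∞ S := by
    rw [contDiff_euclidean]
    intro i
    have h1 : ContDiff ℝ ∞ (fun x : E n => x i) := (EuclideanSpace.proj (𝕜 := ℝ) i).contDiff
    show ContDiff ℝ ∞ (fun x : E n => Real.sin (2 * Real.pi * x i) / (2 * Real.pi))
    exact (Real.contDiff_sin.comp (contDiff_const.mul h1)).div_const _
  obtain ⟨c, hc0, hc1, hD⟩ := dif_small (u := fun x => (-χ x) • S x)
    (hχ.neg.smul hSc) (HasCompactSupport.intro hC fun x hx => by simp [hχ0 x hx])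
  set Θ : E n → E n := fun x => x + (-c) • ((-χ x) • S x) with hΘ
  have hΘB : ∀ x ∈ Box T, ∀ i, Θ x i = th c (x i) := by
    intro x hx i
    simp only [hΘ, hχ1 x hx, hS, th]
    simp
  -- the iterates
  have hit : ∀ x ∈ T, ∀ m : ℕ, Θ^[m] x ∈ Box T ∧ ∀ i, (Θ^[m] x) i = (th c)^[m] (x i) := by
    intro x hx m
    have hfl : ∀ i, |x i - ⌊x i⌋ - 1 / 2| ≤ 1 / 2 := by
      intro i
      rw [abs_le]
      constructor <;> linarith [Int.floor_le (x i), Int.lt_floor_add_one (x i)]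
    have hth : ∀ (m : ℕ) i, |(th c)^[m] (x i) - x i| ≤ 1 := by
      intro m i
      have h1 := th_iter hc0 hc1 le_rfl zero_le_one ⌊x i⌋ (hfl i) (by
        refine Real.cos_nonneg_of_neg_pi_div_two_le_of_le ?_ ?_
        · nlinarith [(abs_le.1 (hfl i)).1]
        · nlinarith [(abs_le.1 (hfl i)).2]) m
      have h2 : (1 - 2 * c * 0 / Real.pi) ^ m = 1 := by simp
      rw [h2, one_mul] at h1
      have h3 := abs_le.1 (h1.trans (hfl i))
      have h4 := abs_le.1 (hfl i)
      rw [abs_le]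
      constructor <;> linarith [h3.1, h3.2, h4.1, h4.2]
    induction m with
    | zero => exact ⟨⟨x, hx, fun i => by simp⟩, fun i => rfl⟩
    | succ m ih =>
      obtain ⟨h1, h2⟩ := ih
      have h3 : ∀ i, (Θ^[m + 1] x) i = (th c)^[m + 1] (x i) := by
        intro i
        rw [iterate_succ_apply', iterate_succ_apply', hΘB _ h1, h2]
      exact ⟨⟨x, hx, fun i => by rw [h3]; exact hth _ i⟩, h3⟩
  -- the uniform constant
  obtain ⟨μ, hμ0, hμ1, hμ⟩ : ∃ μ : ℝ, 0 < μ ∧ μ ≤ 1 ∧ ∀ x ∈ T, ∀ i j : Fin n, i ≠ j →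
      2 * μ ≤ |Real.sin (Real.pi * x i)| + |Real.sin (Real.pi * x j)| := by
    have h1 : ∀ p : Fin n × Fin n, ∀ᶠ μ in 𝓝[>] (0 : ℝ), p.1 ≠ p.2 → ∀ x ∈ T,
        2 * μ ≤ |Real.sin (Real.pi * x p.1)| + |Real.sin (Real.pi * x p.2)| := by
      rintro ⟨i, j⟩
      by_cases hij : i = j
      · exact Eventually.of_forall fun μ h => absurd hij h
      rcases T.eq_empty_or_nonempty with h0 | h0
      · refine Eventually.of_forall fun μ _ x hx => ?_
        rw [h0] at hx
        exact absurd hx (notMem_empty x)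
      obtain ⟨x₀, hx₀, hmin⟩ := hT.exists_isMinOn h0
        (f := fun x => |Real.sin (Real.pi * x i)| + |Real.sin (Real.pi * x j)|)
        (((Real.continuous_sin.comp (continuous_const.mul (coord_cont i))).abs.add
          (Real.continuous_sin.comp (continuous_const.mul (coord_cont j))).abs).continuousOn)
      have hpos : 0 < |Real.sin (Real.pi * x₀ i)| + |Real.sin (Real.pi * x₀ j)| := by
        by_contra hcon
        have h2 : |Real.sin (Real.pi * x₀ i)| = 0 := by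
          linarith [abs_nonneg (Real.sin (Real.pi * x₀ i)), abs_nonneg (Real.sin (Real.pi * x₀ j))]
        have h3 : |Real.sin (Real.pi * x₀ j)| = 0 := by
          linarith [abs_nonneg (Real.sin (Real.pi * x₀ i)), abs_nonneg (Real.sin (Real.pi * x₀ j))]
        rw [abs_eq_zero, Real.sin_eq_zero_iff] at h2 h3
        obtain ⟨k, hk⟩ := h2
        obtain ⟨l, hl⟩ := h3
        refine hint x₀ hx₀ i j hij (2 * k) (2 * l) ⟨?_, ?_⟩
        · push_cast
          nlinarith
        · push_cast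
          nlinarith
      have h4 : ∀ᶠ μ in 𝓝[>] (0 : ℝ),
          2 * μ < |Real.sin (Real.pi * x₀ i)| + |Real.sin (Real.pi * x₀ j)| := by
        have h5 : Tendsto (fun μ : ℝ => 2 * μ) (𝓝[>] 0) (𝓝 0) := by
          have h6 : Tendsto (fun μ : ℝ => 2 * μ) (𝓝 0) (𝓝 (2 * 0)) :=
            (continuous_const.mul continuous_id).tendsto 0
          rw [mul_zero] at h6
          exact h6.mono_left nhdsWithin_le_nhds
        exact h5.eventually (gt_mem_nhds hpos)
      filter_upwards [h4] with μ hμ _ x hx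
      exact hμ.le.trans (isMinOn_iff.1 hmin x hx)
    have h2 : ∀ᶠ μ in 𝓝[>] (0 : ℝ), μ ≤ 1 := by
      filter_upwards [nhdsWithin_le_nhds (Iic_mem_nhds (zero_lt_one' ℝ))] with μ hμ
      exact hμ
    obtain ⟨μ, ⟨h3, h4⟩, h5⟩ := (((eventually_all.2 h1).and h2).and self_mem_nhdsWithin).exists
    exact ⟨μ, h5, h4, fun x hx i j hij => h3 (i, j) hij x hx⟩
  obtain ⟨ρ, hρ, hρV⟩ := (gam_compact hT).exists_thickening_subset_open hV hGV
  set q : ℝ := 1 - 2 * c * μ / Real.pi with hq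
  have hq0 : 0 ≤ q := by
    rw [hq, sub_nonneg, div_le_one hpi]
    nlinarith [Real.pi_gt_three]
  have hq1 : q < 1 := by
    have : 0 < 2 * c * μ / Real.pi := by positivity
    linarith
  obtain ⟨m, hm⟩ : ∃ m : ℕ, √n * (q ^ m * (1 / 2)) < ρ := by
    have h1 : Tendsto (fun m : ℕ => √n * (q ^ m * (1 / 2))) atTop (𝓝 (√n * (0 * (1 / 2)))) :=
      ((tendsto_pow_atTop_nhds_zero_of_lt_one hq0 hq1).mul_const _).const_mul _
    rw [zero_mul, mul_zero] at h1
    exact (h1.eventually (gt_mem_nhds hρ)).exists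
  refine ⟨Θ^[m], isDf_iterate hD m, fun x hx => ?_, ?_⟩
  · have h1 : Θ x = x := by simp [hΘ, hχ0 x hx]
    exact iterate_fixed h1 m
  rintro _ ⟨x, hx, rfl⟩
  obtain ⟨h1, h2⟩ := hit x hx m
  have hfl : ∀ i, |x i - ⌊x i⌋ - 1 / 2| ≤ 1 / 2 := by
    intro i
    rw [abs_le]
    constructor <;> linarith [Int.floor_le (x i), Int.lt_floor_add_one (x i)]
  have hcos : ∀ i, Real.cos (Real.pi * (x i - ⌊x i⌋ - 1 / 2)) = |Real.sin (Real.pi * x i)| := by
    intro i
    have h3 : 0 ≤ Real.cos (Real.pi * (x i - ⌊x i⌋ - 1 / 2)) := by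
      refine Real.cos_nonneg_of_neg_pi_div_two_le_of_le ?_ ?_
      · nlinarith [(abs_le.1 (hfl i)).1]
      · nlinarith [(abs_le.1 (hfl i)).2]
    rw [← abs_of_nonneg h3]
    have h4 : Real.pi * (x i - ⌊x i⌋ - 1 / 2) = (Real.pi * x i - Real.pi / 2) - ⌊x i⌋ * Real.pi := by
      ring
    rw [h4, Real.cos_sub_int_mul_pi, Real.cos_sub_pi_div_two, abs_mul, abs_zpow, abs_neg, abs_one,
      one_zpow, one_mul]
  -- the exceptional coordinate
  obtain ⟨i₀, hi₀⟩ : ∃ i₀ : Fin n, ∀ j, j ≠ i₀ → μ ≤ |Real.sin (Real.pi * x j)| := by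
    by_cases hex : ∃ i₀, |Real.sin (Real.pi * x i₀)| < μ
    · obtain ⟨i₀, hi₀⟩ := hex
      refine ⟨i₀, fun j hj => ?_⟩
      have := hμ x hx i₀ j hj.symm
      linarith
    · push Not at hex
      exact ⟨⟨0, hn⟩, fun j _ => hex j⟩
  have hcl : ∀ j, j ≠ i₀ → |(Θ^[m] x) j - (⌊x j⌋ + 1 / 2)| ≤ q ^ m * (1 / 2) := by
    intro j hj
    have h3 := th_iter hc0 hc1 hμ0.le hμ1 ⌊x j⌋ (hfl j) (by rw [hcos]; exact hi₀ j hj) m
    rw [h2]
    have h4 : (th c)^[m] (x j) - (⌊x j⌋ + 1 / 2) = (th c)^[m] (x j) - ⌊x j⌋ - 1 / 2 := by ring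
    rw [h4]
    exact h3.trans (mul_le_mul_of_nonneg_left (hfl j) (pow_nonneg hq0 m))
  set y : E n := WithLp.toLp 2 fun j => if j = i₀ then (Θ^[m] x) j else ⌊x j⌋ + 1 / 2 with hy
  have hyj : ∀ j, y j = if j = i₀ then (Θ^[m] x) j else ⌊x j⌋ + 1 / 2 := fun j => rfl
  have hyG : y ∈ Gam T := by
    refine ⟨⟨x, hx, fun j => ?_⟩, i₀, fun j hj => ⟨⌊x j⌋, ?_⟩⟩
    · rw [hyj]
      by_cases hj : j = i₀
      · rw [if_pos hj, h2]
        have h3 := th_iter hc0 hc1 le_rfl zero_le_one ⌊x j⌋ (hfl j) (by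
          rw [hcos]
          exact abs_nonneg _) m
        have h4 : (1 - 2 * c * 0 / Real.pi) ^ m = 1 := by simp
        rw [h4, one_mul] at h3
        have h5 := abs_le.1 (h3.trans (hfl j))
        have h6 := abs_le.1 (hfl j)
        rw [abs_le]
        constructor <;> linarith [h5.1, h5.2, h6.1, h6.2]
      · rw [if_neg hj]
        have h6 := abs_le.1 (hfl j)
        rw [abs_le]
        constructor <;> linarith [h6.1, h6.2]
    · rw [hyj, if_neg hj]
  refine hρV (mem_thickening_iff.2 ⟨y, hyG, ?_⟩)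
  rw [dist_eq_norm]
  refine lt_of_le_of_lt (norm_le_of_coord (by positivity) fun j => ?_) hm
  have h3 : (Θ^[m] x - y) j = (Θ^[m] x) j - y j := rfl
  rw [h3, hyj]
  by_cases hj : j = i₀
  · rw [if_pos hj, sub_self, abs_zero]
    positivity
  · rw [if_neg hj]
    exact hcl j hj

end Pool.Agent.H829.CS
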