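import Pool.Agent.H829.CS.Grid

/-!
# Compression of sets of area zero towards graphs: a generic grid
-/

set_option autoImplicit false

open Set Filter Topology Metric Function MeasureTheory
open scoped Manifold ContDiff NNReal

noncomputable section

namespace Pool.Agent.H829.CS

open Pool.Agent.Y522 Pool.Agent.N550.KH Pool.Agent.N550.TS Pool.Agent.H829.AZ

theorem aff_df {n : ℕ} (a : E n) {δ : ℝ} (hδ : δ ≠ 0) : IsDf n (fun x : E n => a + δ • x) := by
  let D : Diffeomorph (𝓡 n) (𝓡 n) (E n) (E n) ∞ :=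
    { toFun := fun w => a + δ • w
      invFun := fun w => δ⁻¹ • (w - a)
      left_inv := fun w => by
        show δ⁻¹ • (a + δ • w - a) = w
        rw [add_sub_cancel_left, smul_smul, inv_mul_cancel₀ hδ, one_smul]
      right_inv := fun w => by
        show a + δ • δ⁻¹ • (w - a) = w
        rw [smul_smul, mul_inv_cancel₀ hδ, one_smul, add_sub_cancel]
      contMDiff_toFun := by
        have : ContDiff ℝ ∞ (fun w : E n => a + δ • w) := by fun_prop
        exact this.contMDiff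
      contMDiff_invFun := by
        have : ContDiff ℝ ∞ (fun w : E n => δ⁻¹ • (w - a)) := by fun_prop
        exact this.contMDiff }
  exact ⟨D.bijective, fun x => D.isLocalDiffeomorph x⟩

theorem norm_two_le (v : E 2) : ‖v‖ ≤ |v 0| + |v 1| := by
  have h1 : ‖v‖ ^ 2 = |v 0| ^ 2 + |v 1| ^ 2 := by
    rw [EuclideanSpace.norm_sq_eq, Fin.sum_univ_two]
    simp
  nlinarith [norm_nonneg v, abs_nonneg (v 0), abs_nonneg (v 1)]

/-- the parameters of the grids for which the codimension two skeleton meets the set are null -/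
theorem bad_null {n : ℕ} {T : Set (E n)} (h0 : Measure.hausdorffMeasure 2 T = 0) (δ : ℝ)
    (i j : Fin n) (α β : ℝ) : Measure.hausdorffMeasure 2
      {w : E 2 | ∃ y ∈ T, w 1 = ((y i - y j) / δ - (α - β)) / ((i : ℝ) - j) ∧
        w 0 = y i / δ - α - w 1 * i} = 0 := by
  let p : Fin n → E n →L[ℝ] ℝ := fun i => EuclideanSpace.proj i
  let tL : E n →L[ℝ] ℝ := (δ * ((i : ℝ) - j))⁻¹ • (p i - p j)
  let sL : E n →L[ℝ] ℝ := δ⁻¹ • p i - (i : ℝ) • tL
  set G : E n → E 2 := fun y => WithLp.toLp 2 ![sL y + (-α + i * ((α - β) / ((i : ℝ) - j))),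
    tL y - (α - β) / ((i : ℝ) - j)] with hG
  have hL : LipschitzWith (‖sL‖₊ + ‖tL‖₊) G := by
    refine LipschitzWith.of_dist_le_mul fun x y => ?_
    rw [dist_eq_norm, dist_eq_norm]
    refine (norm_two_le _).trans ?_
    have h1 : (G x - G y) 0 = sL (x - y) := by
      rw [map_sub]
      simp [hG]
    have h2 : (G x - G y) 1 = tL (x - y) := by
      rw [map_sub]
      simp [hG]
    rw [h1, h2, NNReal.coe_add, add_mul, coe_nnnorm, coe_nnnorm]
    exact add_le_add (sL.le_opNorm _) (tL.le_opNorm _)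
  have h2 := hL.hausdorffMeasure_image_le (d := 2) zero_le_two T
  rw [h0, mul_zero] at h2
  refine measure_mono_null ?_ (le_antisymm h2 bot_le)
  rintro w ⟨y, hy, h3, h4⟩
  refine ⟨y, hy, ?_⟩
  ext k
  fin_cases k
  · show sL y + (-α + i * ((α - β) / ((i : ℝ) - j))) = w 0
    have h5 : sL y = δ⁻¹ * y i - i * ((δ * ((i : ℝ) - j))⁻¹ * (y i - y j)) := rfl
    rw [h4, h3, h5, mul_inv]
    ring
  · show tL y - (α - β) / ((i : ℝ) - j) = w 1
    have h5 : tL y = (δ * ((i : ℝ) - j))⁻¹ * (y i - y j) := rfl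
    rw [h3, h5, mul_inv]
    ring

/-- **Compression.** A compact set of area zero can be compressed, in every neighbourhood, towards
a compact graph that is disjoint from it. -/
theorem compress {n : ℕ} (hn : 3 ≤ n) {T O : Set (E n)} (hT : IsCompact T)
    (h0 : Measure.hausdorffMeasure 2 T = 0) (hO : IsOpen O) (hTO : T ⊆ O) :
    ∃ (Γ C₀ : Set (E n)) (ℓ : Fin n × (Fin n → ℤ) → ℝ → E n), IsCompact Γ ∧ Γ ⊆ O ∧
      Disjoint Γ T ∧ IsCompact C₀ ∧ C₀ ⊆ O ∧ (∀ p, ContDiff ℝ ∞ (ℓ p)) ∧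
      Γ ⊆ ⋃ p, range (ℓ p) ∧ ∀ V : Set (E n), IsOpen V → Γ ⊆ V →
        ∃ Ψ : E n → E n, IsDf n Ψ ∧ (∀ x, x ∉ C₀ → Ψ x = x) ∧ Ψ '' T ⊆ V := by
  obtain ⟨ρ, hρ, hρO⟩ := hT.exists_thickening_subset_open hO hTO
  set δ : ℝ := ρ / (√n + 1) with hδ
  have hn0 : 0 ≤ √(n : ℝ) := Real.sqrt_nonneg _
  have hδ0 : 0 < δ := by positivity
  have hδρ : √n * δ < ρ := by
    rw [hδ, mul_div_assoc', div_lt_iff₀ (by positivity)]
    nlinarith
  -- a generic grid
  set B : Fin n × Fin n × ℤ × ℤ → Set (E 2) := fun p =>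
    {w : E 2 | ∃ y ∈ T, w 1 = ((y p.1 - y p.2.1) / δ - ((p.2.2.1 : ℝ) / 2 - (p.2.2.2 : ℝ) / 2)) /
      ((p.1 : ℝ) - p.2.1) ∧ w 0 = y p.1 / δ - (p.2.2.1 : ℝ) / 2 - w 1 * p.1} with hB
  obtain ⟨w, hw⟩ : ∃ w : E 2, w ∉ ⋃ p, B p := by
    by_contra hcon
    push Not at hcon
    have h1 : Measure.hausdorffMeasure 2 (univ : Set (E 2)) = 0 := by
      refine measure_mono_null (fun w _ => hcon w) ?_
      exact measure_iUnion_null fun p => bad_null h0 δ p.1 p.2.1 _ _
    have h2 := open_null isOpen_univ le_rfl h1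
    have h3 : (0 : E 2) ∈ (∅ : Set (E 2)) := by
      rw [← h2]
      exact mem_univ _
    exact h3
  set a : E n := WithLp.toLp 2 fun i => δ * (w 0 + w 1 * i) with ha
  set A : E n → E n := fun x => a + δ • x with hA
  have hAd : IsDf n A := aff_df a hδ0.ne'
  have hAi : ∀ x i, A x i = δ * (w 0 + w 1 * i) + δ * x i := fun x i => rfl
  obtain ⟨A', hA', hA'A, hAA'⟩ := dfInv hAd
  have hAc : Continuous A := Two.cont_of_ld hAd.2
  have hA'c : Continuous A' := Two.cont_of_ld hA'.2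
  set T1 : Set (E n) := A ⁻¹' T with hT1
  have hT1e : T1 = A' '' T := by
    ext x
    constructor
    · intro hx
      exact ⟨A x, hx, hA'A x⟩
    · rintro ⟨y, hy, rfl⟩
      show A (A' y) ∈ T
      rw [hAA']
      exact hy
  have hT1c : IsCompact T1 := by
    rw [hT1e]
    exact hT.image hA'c
  have hbox : Box T1 ⊆ A ⁻¹' O := by
    rintro y ⟨x, hx, hxy⟩
    refine hρO (mem_thickening_iff.2 ⟨A x, hx, ?_⟩)
    rw [dist_eq_norm]
    refine lt_of_le_of_lt (norm_le_of_coord hδ0.le fun i => ?_) hδρ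
    have h1 : (A y - A x) i = δ * (y i - x i) := by
      show A y i - A x i = _
      rw [hAi, hAi]
      ring
    rw [h1, abs_mul, abs_of_pos hδ0]
    calc δ * |y i - x i| ≤ δ * 1 := mul_le_mul_of_nonneg_left (hxy i) hδ0.le
      _ = δ := mul_one δ
  have hint : ∀ x ∈ T1, ∀ i j : Fin n, i ≠ j → ∀ k l : ℤ, ¬ (2 * x i = k ∧ 2 * x j = l) := by
    rintro x hx i j hij k l ⟨h1, h2⟩
    refine hw (mem_iUnion.2 ⟨(i, j, k, l), A x, hx, ?_, ?_⟩)
    · have h3 : (i : ℝ) - j ≠ 0 := by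
        rw [sub_ne_zero]
        intro h
        exact hij (Fin.ext (by exact_mod_cast h))
      show w 1 = ((A x i - A x j) / δ - ((k : ℝ) / 2 - (l : ℝ) / 2)) / ((i : ℝ) - j)
      rw [hAi, hAi, eq_div_iff h3, ← h1, ← h2]
      field_simp
      ring
    · show w 0 = A x i / δ - (k : ℝ) / 2 - w 1 * i
      rw [hAi, ← h1]
      field_simp
      ring
  obtain ⟨C₀, hC, hCO, hΨ⟩ := compress_norm (by omega) hT1c (hO.preimage hAc) hbox hint
  refine ⟨A '' Gam T1, A '' C₀, fun p t => A (WithLp.toLp 2 fun i => if i = p.1 then t else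
    ((p.2 i : ℝ) + 1 / 2)), (gam_compact hT1c).image hAc, ?_, ?_, hC.image hAc, ?_, ?_, ?_, ?_⟩
  · rintro _ ⟨y, hy, rfl⟩
    exact hbox hy.1
  · rw [disjoint_left]
    rintro _ ⟨y, ⟨-, i, hi⟩, rfl⟩ hyT
    obtain ⟨j, l, hji, hli, hjl⟩ : ∃ j l : Fin n, j ≠ i ∧ l ≠ i ∧ j ≠ l := by
      have h3 : 2 < Fintype.card (Fin n) := by rw [Fintype.card_fin]; omega
      obtain ⟨j, hj⟩ := Fintype.exists_ne_of_one_lt_card (α := Fin n) (by omega) i
      obtain ⟨l, hl⟩ : ∃ l : Fin n, l ∉ ({i, j} : Finset (Fin n)) := by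
        by_contra hcon
        push Not at hcon
        have h4 : Fintype.card (Fin n) ≤ 2 := by
          rw [← Finset.card_univ]
          exact (Finset.card_le_card fun x _ => hcon x).trans Finset.card_le_two
        omega
      rw [Finset.mem_insert, Finset.mem_singleton, not_or] at hl
      exact ⟨j, l, hj, hl.1, fun h => hl.2 h.symm⟩
    obtain ⟨k, hk⟩ := hi j hji
    obtain ⟨k', hk'⟩ := hi l hli
    refine hint y hyT j l hjl (2 * k + 1) (2 * k' + 1) ⟨?_, ?_⟩
    · rw [hk]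
      push_cast
      ring
    · rw [hk']
      push_cast
      ring
  · rintro _ ⟨y, hy, rfl⟩
    exact hCO hy
  · intro p
    have h1 : ContDiff ℝ ∞ (fun t : ℝ => (WithLp.toLp 2 fun i => if i = p.1 then t else
        ((p.2 i : ℝ) + 1 / 2) : E n)) := by
      rw [contDiff_euclidean]
      intro i
      show ContDiff ℝ ∞ fun t : ℝ => if i = p.1 then t else ((p.2 i : ℝ) + 1 / 2)
      by_cases hi : i = p.1
      · simp only [if_pos hi]
        exact contDiff_id
      · simp only [if_neg hi]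
        exact contDiff_const
    have h2 : ContDiff ℝ ∞ (fun x : E n => a + δ • x) := by fun_prop
    exact h2.comp h1
  · rintro _ ⟨y, ⟨-, i, hi⟩, rfl⟩
    have hch : ∀ j, ∃ k : ℤ, j ≠ i → y j = (k : ℝ) + 1 / 2 := by
      intro j
      by_cases hj : j = i
      · exact ⟨0, fun h => absurd hj h⟩
      · obtain ⟨k, hk⟩ := hi j hj
        exact ⟨k, fun _ => hk⟩
    choose k hk using hch
    refine mem_iUnion.2 ⟨(i, k), y i, ?_⟩
    show A _ = A y
    congr 1
    ext j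
    show (if j = i then y i else ((k j : ℝ) + 1 / 2)) = y j
    by_cases hj : j = i
    · rw [if_pos hj, hj]
    · rw [if_neg hj, hk j hj]
  · intro V hV hΓV
    obtain ⟨Ψ, h1, h2, h3⟩ := hΨ (A ⁻¹' V) (hV.preimage hAc) (fun y hy => hΓV ⟨y, hy, rfl⟩)
    refine ⟨fun x => A (Ψ (A' x)), IsDf.comp hAd (IsDf.comp h1 hA'), fun x hx => ?_, ?_⟩
    · show A (Ψ (A' x)) = x
      rw [h2 _ (fun h => hx ⟨A' x, h, hAA' x⟩), hAA']
    · rintro _ ⟨x, hx, rfl⟩
      refine h3 ⟨A' x, ?_, rfl⟩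
      show A (A' x) ∈ T
      rw [hAA']
      exact hx

end Pool.Agent.H829.CS
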