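import Pool.Agent.H829.CS.Cone

/-!
# Manifolds with diffeomorphic complements of sets of area zero
-/

set_option autoImplicit false

open Set Filter Topology Metric Function MeasureTheory
open scoped Manifold ContDiff NNReal ENNReal

noncomputable section

namespace Pool.Agent.H829.CS

open Pool.Agent.Y522 Pool.Agent.N550.KH Pool.Agent.N550.TS Pool.Agent.H829.AZ

/-- `φ` is a diffeomorphism of the complement of `S` with the complement of `T`, with `S`
corresponding to `T` -/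
structure Cmp (n : ℕ) {M N : Type} [TopologicalSpace M] [ChartedSpace (E n) M]
    [TopologicalSpace N] [ChartedSpace (E n) N] (φ : M → N) (S : Set M) (T : Set N) : Prop where
  inj : InjOn φ Sᶜ
  ld : ∀ x, x ∉ S → LD n φ x
  img : φ '' Sᶜ = Tᶜ
  prop : Tendsto φ (cocompact M) (cocompact N)
  near : ∀ V : Set N, IsOpen V → T ⊆ V → ∀ᶠ x in 𝓝ˢ S, x ∉ S → φ x ∈ V

section

variable {n : ℕ} {M N : Type} [TopologicalSpace M] [T2Space M] [ChartedSpace (E n) M]
    [TopologicalSpace N] [T2Space N] [ChartedSpace (E n) N]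

omit [T2Space M] [T2Space N] in
theorem Cmp.notMem {φ : M → N} {S : Set M} {T : Set N} (h : Cmp n φ S T) {x : M} (hx : x ∉ S) :
    φ x ∉ T := by
  have h1 : φ x ∈ φ '' Sᶜ := ⟨x, hx, rfl⟩
  rw [h.img] at h1
  exact h1

omit [T2Space M] [T2Space N] in
theorem Cmp.exists_pre {φ : M → N} {S : Set M} {T : Set N} (h : Cmp n φ S T) {y : N}
    (hy : y ∉ T) : ∃ x, x ∉ S ∧ φ x = y := by
  have h1 : y ∈ φ '' Sᶜ := by
    rw [h.img]
    exact hy
  exact h1

omit [T2Space M] in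
theorem Cmp.open_O {φ : M → N} {S : Set M} {T : Set N} (h : Cmp n φ S T) (hS : IsClosed S)
    {eM : E n → M} (heM : IsCell n eM) (hcov : S ⊆ range eM) : IsOpen (T ∪ φ '' (range eM \ S)) := by
  have : LocallyCompactSpace N := ChartedSpace.locallyCompactSpace (E n) N
  have hop : IsOpen (φ '' (range eM \ S)) :=
    isOpen_image_of_LD (heM.open_range.sdiff hS) fun x hx => h.ld x hx.2
  rw [isOpen_iff_mem_nhds]
  rintro y (hy | hy)
  · obtain ⟨L, hL, hLy⟩ := exists_compact_mem_nhds y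
    have h1 : φ ⁻¹' Lᶜ ∈ cocompact M := h.prop (hL.compl_mem_cocompact)
    obtain ⟨L', hL', hLL'⟩ := mem_cocompact.1 h1
    have hK : IsCompact (L' \ range eM) := hL'.diff heM.open_range
    have hcont : ContinuousOn φ (L' \ range eM) := fun x hx =>
      (h.ld x fun hxS => hx.2 (hcov hxS)).continuousAt.continuousWithinAt
    have hKc : IsClosed (φ '' (L' \ range eM)) := (hK.image_of_continuousOn hcont).isClosed
    have hyK : y ∉ φ '' (L' \ range eM) := by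
      rintro ⟨x, hx, rfl⟩
      exact h.notMem (fun hxS => hx.2 (hcov hxS)) hy
    filter_upwards [hLy, hKc.isOpen_compl.mem_nhds hyK] with w hwL hwK
    by_cases hwT : w ∈ T
    · exact Or.inl hwT
    · obtain ⟨x, hx, rfl⟩ := h.exists_pre hwT
      refine Or.inr ⟨x, ⟨?_, hx⟩, rfl⟩
      by_contra hcon
      refine hwK ⟨x, ⟨?_, hcon⟩, rfl⟩
      by_contra hx'
      exact hLL' hx' hwL
  · exact mem_of_superset (hop.mem_nhds hy) subset_union_right

omit [T2Space N] in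
theorem compact_pre {e : E n → N} (he : IsCell n e) {T : Set N} (hT : IsCompact T)
    (hTe : T ⊆ range e) : IsCompact (e ⁻¹' T) := by
  have hemb : IsOpenEmbedding e := IsOpenEmbedding.of_continuous_injective_isOpenMap he.cont he.1
    (fun s hs => isOpen_image_of_LD (n := n) hs fun z _ => he.2 z)
  rw [hemb.isInducing.isCompact_iff, image_preimage_eq_of_subset hTe]
  exact hT

/-- **A cell around `T` in the given neighbourhood.** -/
theorem Cmp.engulf (hn : 4 ≤ n) {φ : M → N} {S : Set M} {T : Set N} (h : Cmp n φ S T)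
    (hS : IsCompact S) (hT : IsCompact T) {eM : E n → M} (heM : IsCell n eM)
    (hSe : S ⊆ range eM) {eN : E n → N} (heN : IsCell n eN) (hTe : T ⊆ range eN)
    (hS0 : Measure.hausdorffMeasure 2 (eM ⁻¹' S) = 0)
    (hT0 : Measure.hausdorffMeasure 2 (eN ⁻¹' T) = 0) :
    ∃ e : E n → N, IsCell n e ∧ T ⊆ e '' ball 0 1 ∧
      ∀ z, e z ∉ T → ∃ x ∈ range eM, x ∉ S ∧ φ x = e z := by
  have hScl := hS.isClosed
  have hTcl := hT.isClosed
  have hO := h.open_O hScl heM hSe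
  set O : Set N := T ∪ φ '' (range eM \ S) with hOdef
  obtain ⟨Γ, C₀, ℓ, hΓ, hΓO, hΓT, hC, hCO, hℓ, hΓℓ, hΨ⟩ := compress (by omega : 3 ≤ n)
    (compact_pre heN hT hTe) hT0 (hO.preimage heN.cont) (fun y hy => Or.inl hy)
  -- the inverse of `φ`
  have : Nonempty M := ⟨eM 0⟩
  set φ' : N → M := invFunOn φ Sᶜ with hφ'
  have hleft : ∀ x, x ∉ S → φ' (φ x) = x := fun x hx =>
    h.inj (invFunOn_mem ⟨x, hx, rfl⟩) hx (invFunOn_eq ⟨x, hx, rfl⟩)
  have hφ'ld : ∀ x, x ∉ S → LD n φ' (φ x) := fun x hx =>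
    LD.inverse hScl.isOpen_compl (fun z hz => h.ld z hz) (fun z hz => hleft z hz) hx
  set ψ : E n → E n := fun y => invFun eM (φ' (eN y)) with hψ
  have hpt : ∀ y, eN y ∈ O → eN y ∉ T → ∃ z, eM z ∉ S ∧ φ (eM z) = eN y ∧ ψ y = z ∧
      LD n ψ y := by
    rintro y (hy | ⟨x, ⟨⟨z, rfl⟩, hx⟩, hxy⟩) hyT
    · exact absurd hy hyT
    · have h1 : φ' (eN y) = eM z := by rw [← hxy, hleft _ hx]
      refine ⟨z, hx, hxy, ?_, ?_⟩
      · show invFun eM (φ' (eN y)) = z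
        rw [h1, Two.inv_app heM.1]
      · have h2 : LD n (fun y => φ' (eN y)) y := by
          refine LD.comp_fun (g := φ') (f := eN) ?_ (heN.2 y)
          rw [← hxy]
          exact hφ'ld _ hx
        refine LD.comp_fun (g := invFun eM) (f := fun y => φ' (eN y)) ?_ h2
        rw [h1]
        exact Two.ld_inv heM.1 heM.2 z
  have hΓp : ∀ y ∈ Γ, ∃ z, eM z ∉ S ∧ φ (eM z) = eN y ∧ ψ y = z ∧ LD n ψ y := fun y hy =>
    hpt y (hΓO hy) fun hyT => disjoint_left.1 hΓT hy hyT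
  -- the graph in the other manifold
  have hψc : ContinuousOn ψ Γ := fun y hy => by
    obtain ⟨z, -, -, -, h4⟩ := hΓp y hy
    exact h4.continuousAt.continuousWithinAt
  obtain ⟨e, he, hGe, heS⟩ := cone_cell hn (S := eM ⁻¹' S) (G := ψ '' Γ) (compact_pre heM hS hSe)
    hS0 (hΓ.image_of_continuousOn hψc) (by
      rw [disjoint_left]
      rintro _ ⟨y, hy, rfl⟩ hyS
      obtain ⟨z, h1, -, h3, -⟩ := hΓp y hy
      rw [h3] at hyS
      exact h1 hyS) (fun p t => ψ (ℓ p t)) (fun p => {t | eN (ℓ p t) ∈ O ∧ eN (ℓ p t) ∉ T})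
    (by
      rintro p t ⟨h1, h2⟩
      obtain ⟨z, -, -, -, h4⟩ := hpt _ h1 h2
      have h5 : ContDiffAt ℝ 1 ψ (ℓ p t) := h4.contDiffAt.of_le (by simp)
      exact h5.comp t ((hℓ p).of_le (by simp)).contDiffAt) (by
      rintro _ ⟨y, hy, rfl⟩
      obtain ⟨p, t, ht⟩ := mem_iUnion.1 (hΓℓ hy)
      refine mem_iUnion.2 ⟨p, t, ⟨?_, ?_⟩, ?_⟩
      · show eN (ℓ p t) ∈ O
        rw [ht]
        exact hΓO hy
      · show eN (ℓ p t) ∉ T
        rw [ht]
        exact fun hyT => disjoint_left.1 hΓT hy hyT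
      · show ψ (ℓ p t) = ψ y
        rw [ht])
  have heS' : ∀ z, eM (e z) ∉ S := fun z hz => disjoint_left.1 heS (mem_range_self z) hz
  -- the cell in `N`
  have hE₁ : IsCell n (fun z => φ (eM (e z))) := by
    refine ⟨fun z w hzw => he.1 (heM.1 (h.inj (heS' z) (heS' w) hzw)), fun z => ?_⟩
    refine LD.comp_fun (g := φ) (f := fun z => eM (e z)) (h.ld _ (heS' z)) ?_
    exact LD.comp_fun (g := eM) (f := e) (heM.2 _) (he.2 z)
  obtain ⟨Ψ, k1, k2, k3⟩ := hΨ (eN ⁻¹' range (fun z => φ (eM (e z))))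
    (hE₁.open_range.preimage heN.cont) (by
      intro y hy
      obtain ⟨z, h1, h2, h3, -⟩ := hΓp y hy
      obtain ⟨w, hw⟩ := hGe ⟨y, hy, rfl⟩
      refine ⟨w, ?_⟩
      show φ (eM (e w)) = eN y
      rw [hw, h3, h2])
  obtain ⟨R, hR⟩ : ∃ R : ℝ, ∀ z, R ≤ ‖z‖ → Ψ z = z := by
    obtain ⟨R, hR⟩ := hC.isBounded.exists_norm_le
    refine ⟨R + 1, fun z hz => k2 z fun hzC => ?_⟩
    linarith [hR z hzC]
  obtain ⟨K, hK, hKe, hKo⟩ := Supp.main n N eN heN.1 heN.2 Ψ k1 ⟨R, hR⟩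
  obtain ⟨K', hK', a1, a2⟩ := dfInv hK
  have hKO : ∀ w, w ∉ O → K w = w := by
    intro w hw
    by_cases hwe : w ∈ range eN
    · obtain ⟨u, rfl⟩ := hwe
      rw [hKe, k2 u fun hu => hw (hCO hu)]
    · exact hKo w hwe
  have hE₂ : IsCell n (fun z => K' (φ (eM (e z)))) := hE₁.df hK'
  have hTE : T ⊆ range (fun z => K' (φ (eM (e z)))) := by
    intro y hy
    obtain ⟨t, rfl⟩ := hTe hy
    obtain ⟨z, hz⟩ := k3 ⟨t, hy, rfl⟩
    refine ⟨z, ?_⟩
    show K' (φ (eM (e z))) = eN t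
    have h1 : φ (eM (e z)) = eN (Ψ t) := hz
    rw [h1, ← hKe, a1]
  have hEO : ∀ z, K' (φ (eM (e z))) ∈ O := by
    intro z
    by_contra hcon
    have h1 := hKO _ hcon
    rw [a2] at h1
    rw [← h1] at hcon
    exact hcon (Or.inr ⟨eM (e z), ⟨mem_range_self _, heS' z⟩, rfl⟩)
  -- rescaling
  obtain ⟨ρ, hρ⟩ := (compact_pre hE₂ hT hTE).isBounded.exists_norm_le
  obtain ⟨r, hr0, hr⟩ : ∃ r : ℝ, 0 < r ∧ ρ < r := ⟨|ρ| + 1, by positivity, by
    linarith [le_abs_self ρ]⟩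
  have hsc := aff_df (0 : E n) hr0.ne'
  refine ⟨fun z => K' (φ (eM (e (0 + r • z)))), IsCell.comp hE₂ ⟨hsc.1.1, hsc.2⟩, ?_, ?_⟩
  · intro y hy
    obtain ⟨z, hz⟩ := hTE hy
    have hz' : K' (φ (eM (e z))) = y := hz
    refine ⟨r⁻¹ • z, ?_, ?_⟩
    · rw [mem_ball_zero_iff, norm_smul, norm_inv, Real.norm_of_nonneg hr0.le,
        inv_mul_lt_iff₀ hr0, mul_one]
      refine lt_of_le_of_lt (hρ z ?_) hr
      show K' (φ (eM (e z))) ∈ T
      rw [hz']
      exact hy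
    · show K' (φ (eM (e (0 + r • r⁻¹ • z)))) = y
      rw [zero_add, smul_smul, mul_inv_cancel₀ hr0.ne', one_smul, hz']
  · intro z hz
    rcases hEO (0 + r • z) with h1 | ⟨x, ⟨hx, hxS⟩, hxz⟩
    · exact absurd h1 hz
    · exact ⟨x, hx, hxS, hxz⟩

end

end Pool.Agent.H829.CS
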